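import Mathlib
import Pool.Agent.H159R3.Exp.Borel
import Pool.Agent.H159R3.NV.Wron
import Pool.Agent.H159R3.NV.Final
import Pool.Agent.N754.LT.Str2
import Pool.Agent.N754.LT.Grm

/-!
The ring of entire functions: specialisations, units, germs.
-/

set_option autoImplicit false

namespace Pool.Agent.H21bl

open Filter Topology Pool.Agent.N754.LT
open Pool.Agent.H159R3.NV (Ent ev_ne)

/-- the logarithm of an entire function without zeros -/
theorem entire_log {f : ℂ → ℂ} (hf : Differentiable ℂ f) (h0 : ∀ z, f z ≠ 0) :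
    ∃ g : ℂ → ℂ, Differentiable ℂ g ∧ ∀ z, f z = Complex.exp (g z) := by
  have hd : Differentiable ℂ fun z => deriv f z / f z := by
    have h1 : Differentiable ℂ (deriv f) := (hf.contDiff (n := 2)).differentiable_deriv_two
    exact h1.fun_div hf h0
  obtain ⟨g, hg⟩ := hd.isExactOn_univ
  have hg' : ∀ z, HasDerivAt g (deriv f z / f z) z := fun z => hg z (Set.mem_univ z)
  have hgd : Differentiable ℂ g := fun z => (hg' z).differentiableAt
  -- `f exp (-g)` is constant
  have hc : ∀ z, deriv (fun z => f z * Complex.exp (-g z)) z = 0 := by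
    intro z
    have h2 : HasDerivAt (fun z => Complex.exp (-g z)) (Complex.exp (-g z) * -(deriv f z / f z)) z :=
      ((hg' z).neg).cexp
    have h3 := (hf z).hasDerivAt.mul h2
    have h4 : deriv (fun z => f z * Complex.exp (-g z)) z =
        deriv f z * Complex.exp (-g z) + f z * (Complex.exp (-g z) * -(deriv f z / f z)) := h3.deriv
    rw [h4]
    have := h0 z
    field_simp
    ring
  have hdd : Differentiable ℂ fun z => f z * Complex.exp (-g z) :=
    hf.mul (hgd.neg.cexp)
  have hcst := is_const_of_deriv_eq_zero hdd hc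
  set a : ℂ := f 0 * Complex.exp (-g 0) with ha
  have ha0 : a ≠ 0 := mul_ne_zero (h0 0) (Complex.exp_ne_zero _)
  refine ⟨fun z => g z + Complex.log a, hgd.add_const _, fun z => ?_⟩
  have h1 : f z * Complex.exp (-g z) = a := hcst z 0
  rw [Complex.exp_add, Complex.exp_log ha0, ← h1, Complex.exp_neg]
  have := Complex.exp_ne_zero (g z)
  field_simp

/-- specialisations of entire functions near a point -/
noncomputable def rpE (z0 : ℂ) : Rp ℂ Ent where
  T := ℂ
  G := 𝓝[≠] z0
  rep f z := (f : ℂ → ℂ) z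
  rep_add x y := Eventually.of_forall fun z => rfl
  rep_mul x y := Eventually.of_forall fun z => rfl
  rep_const c := Eventually.of_forall fun z => rfl
  rep_ne x hx := by
    have h1 : (x : ℂ → ℂ) ≠ 0 := fun h => hx (Subtype.ext h)
    obtain ⟨w, hw⟩ := Function.ne_iff.1 h1
    exact ev_ne x.2 hw z0

theorem unit_ne (u : Entˣ) (z : ℂ) : ((u : Ent) : ℂ → ℂ) z ≠ 0 := by
  intro h
  have h1 := congrFun (congrArg Subtype.val (Units.mul_inv u)) z
  have h2 : ((u : Ent) : ℂ → ℂ) z * (((u⁻¹ : Entˣ) : Ent) : ℂ → ℂ) z = 1 := h1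
  rw [h, zero_mul] at h2
  exact zero_ne_one h2

/-- a function without zeros as a unit -/
noncomputable def mkU (f : Ent) (h : ∀ z, (f : ℂ → ℂ) z ≠ 0) : Entˣ where
  val := f
  inv := ⟨fun z => ((f : ℂ → ℂ) z)⁻¹, fun z => (f.2 z).inv (h z)⟩
  val_inv := by
    apply Subtype.ext
    funext z
    exact mul_inv_cancel₀ (h z)
  inv_val := by
    apply Subtype.ext
    funext z
    exact inv_mul_cancel₀ (h z)

theorem mkU_val (f : Ent) (h : ∀ z, (f : ℂ → ℂ) z ≠ 0) : (mkU f h : Ent) = f := rfl

theorem unitE (m : ℕ) (g : Fin m → Entˣ)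
    (hne : ∀ i j, i ≠ j → ∀ c : ℂ, (g i : Ent) ≠ algebraMap ℂ Ent c * g j)
    (c : Fin m → ℂ) (hc : ∑ i, algebraMap ℂ Ent (c i) * (g i : Ent) = 0) : c = 0 := by
  classical
  choose G hG1 hG2 using fun i => entire_log (g i : Ent).2 (unit_ne (g i))
  have h1 := Pool.Agent.H159R3.Exp.borel_spec (B := Fin m → ℂ) G hG1
    (fun i => Pi.single i (1 : ℂ)) (by
      intro i j a ha
      by_cases hij : i = j
      · subst hij
        have h2 : a = 0 := by
          have := ha 0
          linear_combination -this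
        rw [h2, Complex.exp_zero, one_smul]
      · exfalso
        apply hne i j hij (Complex.exp a)
        apply Subtype.ext
        funext z
        show ((g i : Ent) : ℂ → ℂ) z = Complex.exp a * ((g j : Ent) : ℂ → ℂ) z
        rw [hG2, hG2, ha z, Complex.exp_add, mul_comm]) Finset.univ c (by
      intro z
      have h2 := congrFun (congrArg Subtype.val hc) z
      have h3 : ((∑ i, algebraMap ℂ Ent (c i) * (g i : Ent) : Ent) : ℂ → ℂ) z =
          ∑ i, c i * ((g i : Ent) : ℂ → ℂ) z := by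
        rw [AddSubmonoidClass.coe_finsetSum, Finset.sum_apply]
        rfl
      rw [h3] at h2
      simp only [hG2] at h2
      exact h2)
  funext i
  have h2 := congrFun h1 i
  rw [Finset.sum_apply, Finset.sum_eq_single i] at h2
  · simpa using h2
  · intro j _ hj
    rw [Pi.smul_apply, Pi.single_eq_of_ne (Ne.symm hj), smul_zero]
  · intro h
    exact absurd (Finset.mem_univ _) h

theorem tfE (g : Entˣ) (m : ℕ) (hm : 0 < m)
    (h : ∃ c : ℂ, ((g ^ m : Entˣ) : Ent) = algebraMap ℂ Ent c) :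
    ∃ c : ℂ, (g : Ent) = algebraMap ℂ Ent c := by
  obtain ⟨c, hc⟩ := h
  obtain ⟨G, hG1, hG2⟩ := entire_log (g : Ent).2 (unit_ne g)
  have h1 : ∀ z, Complex.exp (m * G z) = c := by
    intro z
    have h2 := congrFun (congrArg Subtype.val hc) z
    have h3 : (((g ^ m : Entˣ) : Ent) : ℂ → ℂ) z = ((g : Ent) : ℂ → ℂ) z ^ m := by
      rw [Units.val_pow_eq_pow_val]
      rfl
    rw [h3, hG2, ← Complex.exp_nat_mul] at h2
    exact h2
  have h2 := Pool.Agent.H159R3.Exp.const_of_exp (G := fun z => m * G z) (hG1.const_mul _) h1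
  refine ⟨Complex.exp (G 0), ?_⟩
  apply Subtype.ext
  funext z
  have h3 := h2 z 0
  have hm0 : (m : ℂ) ≠ 0 := by exact_mod_cast hm.ne'
  have h4 : G z = G 0 := mul_left_cancel₀ hm0 h3
  show ((g : Ent) : ℂ → ℂ) z = Complex.exp (G 0)
  rw [hG2, h4]

/-- an ultrafilter of points near a given point -/
noncomputable def nu (z0 : ℂ) : Ultrafilter ℂ := Ultrafilter.of (𝓝[≠] z0)

theorem nu_le (z0 : ℂ) : (nu z0 : Filter ℂ) ≤ 𝓝[≠] z0 := Ultrafilter.of_le _

/-- germs of entire functions -/
noncomputable def gE (z0 : ℂ) : Ent →+* GC ℂ (nu z0) := (gc (nu z0)).comp Ent.val.toRingHom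

theorem gE_apply (z0 : ℂ) (f : Ent) : gE z0 f = gc (nu z0) (f : ℂ → ℂ) := rfl

theorem gE_inj (z0 : ℂ) : Function.Injective (gE z0) := by
  rw [injective_iff_map_eq_zero]
  intro f hf
  by_contra hne
  rw [gE_apply, gc_zero] at hf
  obtain ⟨z, h1, h2⟩ := (hf.and (nu_le z0 ((rpE z0).rep_ne f hne))).exists
  exact h2 h1

end Pool.Agent.H21bl
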