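import Mathlib
import Pool.Agent.H21bl.LT.Ent
import Pool.Agent.Y220.KG.Core
import Pool.Agent.Y192.OG.All
import Pool.Agent.Y192.OG.B2

/-!
The curve given by entire functions without zeros, composed with the exponential function.
-/

set_option autoImplicit false

namespace Pool.Agent.H21bl

open Filter Topology Metric Set MvPolynomial
open Pool.Agent.Y192.OG Pool.Agent.Y192.KC Pool.Agent.W603.BP Pool.Agent.Y220.KG
open Pool.Agent.H159R3.NV (Ent ev_ne)

variable {r : ℕ} (w : Fin r → Ent)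

/-- homogeneous coordinates -/
noncomputable def UU : Fin (r + 1) → ℂ → ℂ := Fin.cons (fun _ => 1) fun j => (w j : ℂ → ℂ)

theorem UU_zero (z : ℂ) : UU w 0 z = 1 := rfl

theorem UU_succ (j : Fin r) (z : ℂ) : UU w j.succ z = (w j : ℂ → ℂ) z := rfl

theorem UU_diff (i : Fin (r + 1)) : Differentiable ℂ (UU w i) := by
  refine Fin.cases ?_ (fun j => ?_) i
  · exact differentiable_const 1
  · exact (w j).2

theorem UU_ncz (z : ℂ) : ∃ i, UU w i z ≠ 0 := ⟨0, by rw [UU_zero]; exact one_ne_zero⟩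

variable (hw0 : ∀ j z, (w j : ℂ → ℂ) z ≠ 0)

include hw0 in
theorem UU_ne (i : Fin (r + 1)) (z : ℂ) : UU w i z ≠ 0 := by
  refine Fin.cases ?_ (fun j => ?_) i
  · rw [UU_zero]
    exact one_ne_zero
  · exact hw0 j z

/-- the curve -/
noncomputable def cu : Curve r :=
  ecurve (UU w) (UU_diff w) (UU_ncz w) (fun i => ⟨0, UU_ne w hw0 i 0⟩)

theorem cu_r0 : (cu w hw0).r0 = 1 := rfl

theorem cu_mem {z : ℂ} (hz : 1 < ‖z‖) : z ∈ (cu w hw0).U :=
  ecurve_mem hz fun i => UU_ne w hw0 i _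

theorem cu_ext {z : ℂ} (hz : z ∈ (cu w hw0).U) : 1 < ‖z‖ := hz.1

theorem cu_X (i : Fin (r + 1)) (z : ℂ) : (cu w hw0).X i z = UU w i (Complex.exp z) := rfl

theorem cu_xf (i : Fin r) (z : ℂ) : (cu w hw0).xf i z = (w i : ℂ → ℂ) (Complex.exp z) := by
  unfold Curve.xf
  rw [cu_X, cu_X, UU_zero, div_one, UU_succ]

theorem cu_bad (z : ℂ) : (cu w hw0).bad z = 0 := by
  unfold Curve.bad
  rw [if_neg]
  rintro ⟨i, hi⟩
  exact UU_ne w hw0 i _ hi

theorem cu_cnt_bad (R : ℝ) : (cu w hw0).cnt (fun z => ((cu w hw0).bad z : ℤ)) R = 0 := by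
  unfold Curve.cnt
  rw [finsum_mem_eq_zero_of_forall_eq_zero]
  intro z _
  show (((cu w hw0).bad z : ℤ) : ℝ) * _ = 0
  rw [cu_bad]
  simp

/-- functions on the exterior of the disc -/
noncomputable def psi0 : Ent →ₐ[ℂ] ((cu w hw0).U → ℂ) where
  toFun := fun (y : Ent) (z : (cu w hw0).U) => (y : ℂ → ℂ) (Complex.exp z)
  map_one' := rfl
  map_mul' := fun _ _ => rfl
  map_zero' := rfl
  map_add' := fun _ _ => rfl
  commutes' := fun _ => rfl

/-- functions on the exterior of the disc -/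
noncomputable def psi : Ent →ₐ[ℂ] (cu w hw0).Mr :=
  (psi0 w hw0).codRestrict (cu w hw0).Mr (fun y =>
    ((cu w hw0).mr (fun z => (y : ℂ → ℂ) (Complex.exp z))
      (fun z _ => ((y.2.comp Complex.differentiable_exp).analyticAt z).meromorphicAt)
      (fun z _ => (y.2.comp Complex.differentiable_exp).analyticAt z)).2)

theorem val_psi (y : Ent) {z : ℂ} (hz : z ∈ (cu w hw0).U) :
    (cu w hw0).val (psi w hw0 y) z = (y : ℂ → ℂ) (Complex.exp z) := by
  unfold Curve.val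
  rw [(cu w hw0).ext_of_mem _ hz]
  rfl

theorem psi_inj : Function.Injective (psi w hw0) := by
  rw [injective_iff_map_eq_zero]
  intro y hy
  by_contra hne
  have h1 : (y : ℂ → ℂ) ≠ 0 := fun h => hne (Subtype.ext h)
  obtain ⟨x, hx⟩ := Function.ne_iff.1 h1
  obtain ⟨u, hu1, hu2⟩ := ((ev_ne y.2 hx 0).and self_mem_nhdsWithin).exists
  obtain ⟨z, hz1, hz2⟩ := exists_log (show u ≠ 0 from hu2) 1
  have h2 := val_psi w hw0 y (cu_mem w hw0 hz1)
  rw [hy, val_zero', hz2] at h2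
  exact hu1 h2.symm

/-- monomials -/
theorem psi_mon (b : Fin r → ℕ) :
    psi w hw0 (∏ j, w j ^ b j) = (cu w hw0).mon (fun j => (b j : ℤ)) := by
  apply (cu w hw0).val_inj
  intro z hz
  rw [val_psi w hw0 _ hz, (cu w hw0).val_mon _ hz]
  unfold Curve.monf
  have h1 : ((∏ j, w j ^ b j : Ent) : ℂ → ℂ) = ∏ j, (w j : ℂ → ℂ) ^ b j := by
    rw [SubmonoidClass.coe_finsetProd]
    rfl
  rw [h1, Finset.prod_apply]
  refine Finset.prod_congr rfl fun j _ => ?_
  rw [cu_xf, zpow_natCast]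
  rfl

/-- zeros as a divisor -/
noncomputable def zr (f : (cu w hw0).Mr) (z : ℂ) : ℤ := by
  classical
  exact if z ∈ (cu w hw0).U then ((cu w hw0).ord z f).untop₀ else 0

section zr

variable {w hw0} {f : (cu w hw0).Mr} (hf : f ≠ 0)

include hf in
theorem ord_int {z : ℂ} (hz : z ∈ (cu w hw0).U) :
    (((cu w hw0).ord z f).untop₀ : WithTop ℤ) = (cu w hw0).ord z f :=
  WithTop.coe_untop₀_of_ne_top ((a_ring r (cu w hw0)).2.2.2 f hf z ((cu w hw0).U_sub hz))

include hf in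
theorem zr_nonneg (z : ℂ) : 0 ≤ zr w hw0 f z := by
  unfold zr
  split_ifs with h
  · have h1 := ((a_ord r (cu w hw0)).1 z ((cu w hw0).U_sub h)).2.2.2.1 h f
    rw [← ord_int hf h] at h1
    have h2 : ((0 : ℤ) : WithTop ℤ) ≤ ((((cu w hw0).ord z f).untop₀ : ℤ) : WithTop ℤ) := h1
    exact WithTop.coe_le_coe.mp h2
  · exact le_rfl

theorem zr_out {z : ℂ} (hz : z ∉ (cu w hw0).U) : zr w hw0 f z = 0 := by
  unfold zr
  rw [if_neg hz]

include hf in
theorem zr_fin : (cu w hw0).LocFin (fun z => (zr w hw0 f z : ℤ)) := by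
  refine (a_cnt r (cu w hw0)).2.2.2 _ _ ((a_ord r (cu w hw0)).2.2.2.2.2.1 f hf) fun z _ => ?_
  unfold zr
  split_ifs with h
  · exact le_rfl
  · simp

include hf in
theorem zr_le {z : ℂ} (hz : z ∈ (cu w hw0).U) (g : (cu w hw0).Mr) :
    ((zr w hw0 f z : ℤ) : WithTop ℤ) ≤ (cu w hw0).ord z (f * g) := by
  have h0 := (a_ord r (cu w hw0)).1 z ((cu w hw0).U_sub hz)
  rw [h0.1]
  unfold zr
  rw [if_pos hz]
  have h1 := h0.2.2.2.1 hz g
  have h2 : ((((cu w hw0).ord z f).untop₀ : ℤ) : WithTop ℤ) = (cu w hw0).ord z f := ord_int hf hz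
  rw [h2]
  exact le_add_of_nonneg_right h1

include hf in
theorem one_le_zr {z : ℂ} (hz : z ∈ (cu w hw0).U) (h : (cu w hw0).val f z = 0) :
    1 ≤ zr w hw0 f z := by
  have h1 := one_le_ord hz h
  rw [← ord_int hf hz] at h1
  unfold zr
  rw [if_pos hz]
  have h2 : ((1 : ℤ) : WithTop ℤ) ≤ ((((cu w hw0).ord z f).untop₀ : ℤ) : WithTop ℤ) := h1
  exact WithTop.coe_le_coe.mp h2

end zr

/-- the curve is transcendental -/
theorem cu_trans (hr : 1 ≤ r) (hnc : ∀ j, ∀ a : ℂ, w j ≠ algebraMap ℂ Ent a) :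
    ¬ ∀ j, ∃ R : ℂ → ℂ, MeromorphicAt (fun w => R w⁻¹) 0 ∧ ∃ R0 : ℝ, ∀ z, R0 < ‖z‖ →
      (cu w hw0).X j z = R z * (cu w hw0).X 0 z := by
  intro h
  let j0 : Fin r := ⟨0, hr⟩
  obtain ⟨R, hR, R0, hR0⟩ := h j0.succ
  obtain ⟨L, hL⟩ := char_const (U := UU w) (hd := UU_diff w) (hz := UU_ncz w)
    (hn := fun i => ⟨0, UU_ne w hw0 i 0⟩) (γ := Pi.single j0 1) ⟨R, hR, R0, fun z hz hz2 => by
      have h1 := hR0 z hz2
      have h2 : (cu w hw0).X 0 z = 1 := rfl
      rw [h2, mul_one] at h1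
      rw [← h1]
      show ∏ i, (cu w hw0).xf i z ^ (Pi.single j0 1 : Fin r → ℤ) i = _
      rw [Finset.prod_eq_single j0]
      · rw [Pi.single_eq_same, zpow_one, cu_xf]
        rfl
      · intro j _ hj
        rw [Pi.single_eq_of_ne hj, zpow_zero]
      · intro h'
        exact absurd (Finset.mem_univ _) h'⟩
  have h1 : ∀ z, z ≠ 0 → (w j0 : ℂ → ℂ) z = L := by
    intro z hz
    have h2 := hL z hz fun i => UU_ne w hw0 i z
    rw [Finset.prod_eq_single j0] at h2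
    · rw [Pi.single_eq_same, zpow_one] at h2
      have h3 : UU w j0.succ z / UU w 0 z = L := h2
      rw [UU_zero, div_one] at h3
      exact h3
    · intro j _ hj
      rw [Pi.single_eq_of_ne hj, zpow_zero]
    · intro h'
      exact absurd (Finset.mem_univ _) h'
  apply hnc j0 L
  apply Subtype.ext
  funext z
  show (w j0 : ℂ → ℂ) z = L
  have h2 : Dense ({0}ᶜ : Set ℂ) := dense_compl_singleton 0
  exact congrFun (Continuous.ext_on h2 (w j0).2.continuous continuous_const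
    (fun z hz => h1 z hz)) z

end Pool.Agent.H21bl
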