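import Mathlib

/-!
Factors of homogeneous polynomials are homogeneous, for arbitrary integral weights.
-/

set_option autoImplicit false

namespace Pool.Agent.H21bl

open MvPolynomial

variable {k : Type} [Field k] {r : ℕ}

/-- the weight of an exponent -/
def wtl (l : Fin r → ℤ) (b : Fin r →₀ ℕ) : ℤ := ∑ j, l j * (b j : ℤ)

theorem wtl_add (l : Fin r → ℤ) (b b' : Fin r →₀ ℕ) : wtl l (b + b') = wtl l b + wtl l b' := by
  unfold wtl
  rw [← Finset.sum_add_distrib]
  refine Finset.sum_congr rfl fun j _ => ?_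
  rw [Finsupp.add_apply]
  push_cast
  ring

/-- the component of weight `a` -/
noncomputable def cmp (l : Fin r → ℤ) (a : ℤ) (p : MvPolynomial (Fin r) k) :
    MvPolynomial (Fin r) k :=
  ∑ b ∈ p.support.filter (fun b => wtl l b = a), monomial b (coeff b p)

theorem coeff_cmp (l : Fin r → ℤ) (a : ℤ) (p : MvPolynomial (Fin r) k) (b : Fin r →₀ ℕ) :
    coeff b (cmp l a p) = if wtl l b = a then coeff b p else 0 := by
  classical
  unfold cmp
  rw [coeff_sum]
  simp only [coeff_monomial]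
  rw [Finset.sum_ite_eq']
  by_cases h : wtl l b = a
  · rw [if_pos h]
    by_cases hb : b ∈ p.support
    · rw [if_pos (Finset.mem_filter.2 ⟨hb, h⟩)]
    · rw [if_neg fun h' => hb (Finset.mem_filter.1 h').1]
      exact (notMem_support_iff.1 hb).symm
  · have h2 : b ∉ p.support.filter (fun b => wtl l b = a) := fun h' => h (Finset.mem_filter.1 h').2
    rw [if_neg h, if_neg h2]

theorem top_mem (l : Fin r → ℤ) (p q : MvPolynomial (Fin r) k) (a b : ℤ)
    (ha : ∀ x ∈ p.support, wtl l x ≤ a) (ha' : ∃ x ∈ p.support, wtl l x = a)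
    (hb : ∀ x ∈ q.support, wtl l x ≤ b) (hb' : ∃ x ∈ q.support, wtl l x = b) :
    ∃ x ∈ (p * q).support, wtl l x = a + b := by
  classical
  have hp : cmp l a p ≠ 0 := by
    obtain ⟨x, hx, hx2⟩ := ha'
    intro h
    have h1 := congrArg (coeff x) h
    rw [coeff_cmp, if_pos hx2, coeff_zero] at h1
    exact (mem_support_iff.1 hx) h1
  have hq : cmp l b q ≠ 0 := by
    obtain ⟨x, hx, hx2⟩ := hb'
    intro h
    have h1 := congrArg (coeff x) h
    rw [coeff_cmp, if_pos hx2, coeff_zero] at h1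
    exact (mem_support_iff.1 hx) h1
  obtain ⟨x, hx⟩ := support_nonempty.2 (mul_ne_zero hp hq)
  rw [mem_support_iff, coeff_mul] at hx
  obtain ⟨⟨y, z⟩, hyz, hne⟩ := Finset.exists_ne_zero_of_sum_ne_zero hx
  rw [Finset.HasAntidiagonal.mem_antidiagonal] at hyz
  simp only [coeff_cmp] at hne hyz
  have hy : wtl l y = a := by
    by_contra h
    rw [if_neg h, zero_mul] at hne
    exact hne rfl
  have hz : wtl l z = b := by
    by_contra h
    rw [if_neg h, mul_zero] at hne
    exact hne rfl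
  have hxw : wtl l x = a + b := by rw [← hyz, wtl_add, hy, hz]
  refine ⟨x, ?_, hxw⟩
  rw [mem_support_iff, coeff_mul]
  have h1 : ∑ u ∈ Finset.HasAntidiagonal.antidiagonal x, coeff u.1 p * coeff u.2 q =
      ∑ u ∈ Finset.HasAntidiagonal.antidiagonal x, coeff u.1 (cmp l a p) * coeff u.2 (cmp l b q) := by
    refine Finset.sum_congr rfl fun u hu => ?_
    rw [coeff_cmp, coeff_cmp]
    rw [Finset.HasAntidiagonal.mem_antidiagonal] at hu
    have hw : wtl l u.1 + wtl l u.2 = a + b := by rw [← wtl_add, hu, hxw]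
    by_cases h1 : coeff u.1 p = 0
    · rw [h1]
      simp
    by_cases h2 : coeff u.2 q = 0
    · rw [h2]
      simp
    have h3 := ha u.1 (mem_support_iff.2 h1)
    have h4 := hb u.2 (mem_support_iff.2 h2)
    rw [if_pos (by omega), if_pos (by omega)]
  rw [h1]
  exact hx

theorem mul_hom (l : Fin r → ℤ) (p q : MvPolynomial (Fin r) k) (hp : p ≠ 0) (hq : q ≠ 0)
    (h : ∀ b ∈ (p * q).support, ∀ b' ∈ (p * q).support, wtl l b = wtl l b') :
    (∀ b ∈ p.support, ∀ b' ∈ p.support, wtl l b = wtl l b') ∧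
    ∀ b ∈ q.support, ∀ b' ∈ q.support, wtl l b = wtl l b' := by
  classical
  obtain ⟨x1, hx1, hx1'⟩ := Finset.exists_max_image p.support (wtl l) (support_nonempty.2 hp)
  obtain ⟨x2, hx2, hx2'⟩ := Finset.exists_max_image q.support (wtl l) (support_nonempty.2 hq)
  obtain ⟨y1, hy1, hy1'⟩ := Finset.exists_min_image p.support (wtl l) (support_nonempty.2 hp)
  obtain ⟨y2, hy2, hy2'⟩ := Finset.exists_min_image q.support (wtl l) (support_nonempty.2 hq)
  have hneg : ∀ b : Fin r →₀ ℕ, wtl (-l) b = -wtl l b := by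
    intro b
    unfold wtl
    rw [← Finset.sum_neg_distrib]
    exact Finset.sum_congr rfl fun j _ => by rw [Pi.neg_apply, neg_mul]
  obtain ⟨u, hu, hu'⟩ := top_mem l p q _ _ hx1' ⟨x1, hx1, rfl⟩ hx2' ⟨x2, hx2, rfl⟩
  obtain ⟨v, hv, hv'⟩ := top_mem (-l) p q (-wtl l y1) (-wtl l y2)
    (fun x hx => by rw [hneg]; have := hy1' x hx; omega) ⟨y1, hy1, hneg _⟩
    (fun x hx => by rw [hneg]; have := hy2' x hx; omega) ⟨y2, hy2, hneg _⟩
  rw [hneg] at hv'
  have h1 := h u hu v hv
  have h2 := hx1' y1 hy1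
  have h3 := hx2' y2 hy2
  constructor
  · intro b hb b' hb'
    have e1 := hx1' b hb
    have e2 := hy1' b hb
    have e3 := hx1' b' hb'
    have e4 := hy1' b' hb'
    omega
  · intro b hb b' hb'
    have e1 := hx2' b hb
    have e2 := hy2' b hb
    have e3 := hx2' b' hb'
    have e4 := hy2' b' hb'
    omega

theorem prod_hom {ι : Type} (l : Fin r → ℤ) (s : Finset ι) (q : ι → MvPolynomial (Fin r) k)
    (hq : ∀ i ∈ s, q i ≠ 0)
    (h : ∀ b ∈ (∏ i ∈ s, q i).support, ∀ b' ∈ (∏ i ∈ s, q i).support, wtl l b = wtl l b')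
    (i : ι) (hi : i ∈ s) : ∀ b ∈ (q i).support, ∀ b' ∈ (q i).support, wtl l b = wtl l b' := by
  classical
  rw [← Finset.mul_prod_erase _ _ hi] at h
  exact (mul_hom l (q i) _ (hq i hi)
    (Finset.prod_ne_zero_iff.2 fun j hj => hq j (Finset.mem_of_mem_erase hj)) h).1

end Pool.Agent.H21bl
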