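import Mathlib
import Pool.Agent.H21bl.LT.AnC
import Pool.Agent.H21bl.LT.Hom
import Pool.Agent.N754.LT.Quot
import Pool.Agent.N754.LT.Grp

/-!
The quotient theorem for entire functions, and the functional on exponents.
-/

set_option autoImplicit false

namespace Pool.Agent.H21bl

open Filter Topology Metric Set MvPolynomial Module
open Pool.Agent.Y192.OG Pool.Agent.Y192.KC Pool.Agent.W603.BP Pool.Agent.Y220.KG
open Pool.Agent.H159R3.NV (Ent ev_ne)
open Pool.Agent.Y742.DI Pool.Agent.N754.LT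

variable {r : ℕ} {w : Fin r → Ent} {hw0 : ∀ j z, (w j : ℂ → ℂ) z ≠ 0}

theorem single_inj : Function.Injective fun i : Fin r => (Pi.single i 1 : Fin r → ℤ) := by
  intro i j h
  by_contra hij
  have h1 := congrFun h i
  simp only [Pi.single_eq_same] at h1
  rw [Pi.single_eq_of_ne hij] at h1
  exact one_ne_zero h1

theorem sum_single (m : Fin r → ℤ) : ∑ i, m i • (Pi.single i 1 : Fin r → ℤ) = m := by
  funext j
  rw [Finset.sum_apply, Finset.sum_eq_single j]
  · rw [Pi.smul_apply, Pi.single_eq_same, smul_eq_mul, mul_one]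
  · intro i _ hi
    rw [Pi.smul_apply, Pi.single_eq_of_ne (Ne.symm hi), smul_zero]
  · intro h
    exact absurd (Finset.mem_univ _) h

theorem aeval_mono (b : Fin r → ℕ) (a : ℂ) :
    aeval w (monomial (fs b) a) = algebraMap ℂ Ent a * ∏ j, w j ^ b j := by
  rw [aeval_monomial, Finsupp.prod_fintype _ _ (fun i => pow_zero _)]
  rfl

theorem psi_mono (b : Fin r → ℕ) (a : ℂ) :
    psi w hw0 (aeval w (monomial (fs b) a)) = a • (cu w hw0).mon (fun j => (b j : ℤ)) := by
  rw [aeval_mono, map_mul, psi_mon, AlgHom.commutes, Algebra.smul_def]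

/-- The zeros of `q(w)` are few if `q(w) y = p(w)` for coprime `p`, `q`. -/
theorem few_zeros {F : (cu w hw0).Mr} (R : Rad (cu w hw0) F) (hr : 1 ≤ r)
    (hw : AlgebraicIndependent ℂ w) (p q : MvPolynomial (Fin r) ℂ) (hq : q ≠ 0)
    (hpq : IsRelPrime q p) (y : Ent) (hy : aeval w q * y = aeval w p) (ε : ℝ) (hε : 0 < ε) :
    ∀ᶠ n in atTop, (cu w hw0).cnt (fun z => (zr w hw0 (psi w hw0 (aeval w q)) z : ℤ)) (R.s n) ≤
      ε * (cu w hw0).ch (R.s n) := by
  classical
  set φ : MvPolynomial (Fin r) ℂ →ₐ[ℂ] Ent := aeval w with hφ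
  have hinj : Function.Injective φ := hw
  have hq0 : φ q ≠ 0 := fun h => hq (hinj (by rw [h, map_zero]))
  have hpq0 : psi w hw0 (φ q) ≠ 0 := fun h => hq0 (psi_inj w hw0 (by rw [h, map_zero]))
  obtain ⟨M, hM, hnum⟩ := num_est r p.totalDegree q.totalDegree hr 1 (ε / 2) zero_le_one
    (by positivity)
  let W : Submodule ℂ ((Sx r M) → ℂ) :=
    { carrier := {f | ∃ y : Ent, φ q * y = φ (toPol ℂ r M f)}
      add_mem' := by
        rintro f g ⟨y, hy⟩ ⟨z, hz⟩
        exact ⟨y + z, by rw [mul_add, hy, hz, map_add, map_add]⟩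
      zero_mem' := ⟨0, by rw [mul_zero, map_zero, map_zero]⟩
      smul_mem' := by
        rintro c f ⟨y, hy⟩
        exact ⟨algebraMap ℂ Ent c * y, by
          rw [map_smul, map_smul, Algebra.smul_def, ← hy]; ring⟩ }
  have hmemW : ∀ f, f ∈ W ↔ ∃ y : Ent, φ q * y = φ (toPol ℂ r M f) := fun f => Iff.rfl
  have hdim := dim_lower p q hq hpq M hM W (by
    intro α β hα hβ
    rw [hmemW]
    have hdeg : (α * p + β * q).totalDegree ≤ M := by
      refine (totalDegree_add _ _).trans (max_le ?_ ?_)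
      · refine (totalDegree_mul _ _).trans ?_
        omega
      · refine (totalDegree_mul _ _).trans ?_
        omega
    refine ⟨φ α * y + φ β, ?_⟩
    rw [toPol_coef _ hdeg, map_add, map_mul, map_mul, ← hy]
    ring)
  have hle : finrank ℂ W ≤ (Sx r M).card := by
    have h1 := Submodule.finrank_le W
    rwa [Module.finrank_fintype_fun_eq_card, Fintype.card_coe] at h1
  obtain ⟨hNpos, hnum2⟩ := hnum (finrank ℂ W) hle hdim
  set N : ℕ := finrank ℂ W with hN
  let bs : Basis (Fin N) ℂ W := Module.finBasis ℂ W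
  choose yb hyb using fun a : Fin N => (hmemW _).1 (bs a).2
  let E : Fin (Fintype.card (Sx r M)) ≃ Sx r M := (Fintype.equivFin _).symm
  let m : Fin (Fintype.card (Sx r M)) → Fin r → ℤ := fun i j => ((E i).1 j : ℤ)
  let f : Fin N → (cu w hw0).Mr := fun a => psi w hw0 (φ (toPol ℂ r M (bs a)))
  have hf : ∀ a, f a = psi w hw0 (φ q) * psi w hw0 (yb a) := by
    intro a
    simp only [f]
    rw [← hyb, map_mul]
  have hfc : ∀ (c : Fin N → ℂ), ∑ a, c a • f a =
      psi w hw0 (φ (toPol ℂ r M ((∑ a, c a • bs a : W) : (Sx r M) → ℂ))) := by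
    intro c
    simp only [f]
    rw [AddSubmonoidClass.coe_finsetSum, map_sum, map_sum, map_sum]
    refine Finset.sum_congr rfl fun a _ => ?_
    rw [Submodule.coe_smul, map_smul, map_smul, map_smul]
  have hli : LinearIndependent ℂ f := by
    rw [Fintype.linearIndependent_iff]
    intro c hc
    rw [hfc] at hc
    have h1 : toPol ℂ r M ((∑ a, c a • bs a : W) : (Sx r M) → ℂ) = 0 :=
      hinj (psi_inj w hw0 (by rw [hc, map_zero, map_zero]))
    have h2 : (∑ a, c a • bs a : W) = 0 := by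
      apply Subtype.ext
      rw [← coef_toPol ((∑ a, c a • bs a : W) : (Sx r M) → ℂ), h1, map_zero]
      rfl
    exact Fintype.linearIndependent_iff.1 bs.linearIndependent c h2
  have hspan : ∀ a, f a ∈ Submodule.span ℂ (Set.range fun i => (cu w hw0).mon (m i)) := by
    intro a
    simp only [f]
    rw [toPol_apply, map_sum, map_sum]
    refine Submodule.sum_mem _ fun b _ => ?_
    rw [hφ, psi_mono]
    refine Submodule.smul_mem _ _ (Submodule.subset_span ⟨E.symm b, ?_⟩)
    simp only [m, Equiv.apply_symm_apply]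
  have hM0 : ∀ i j, |m i j| ≤ (M : ℤ) := by
    intro i j
    simp only [m]
    rw [abs_of_nonneg (Nat.cast_nonneg _)]
    have h1 := (mem_Sx (E i).1).1 (E i).2
    have h2 := Finset.single_le_sum (f := (E i).1) (fun _ _ => Nat.zero_le _) (Finset.mem_univ j)
    exact_mod_cast h2.trans h1
  obtain ⟨-, hgw⟩ := a_gwl r (cu w hw0) F R ∅ (Finset.univ.image fun i : Fin r => Pi.single i 1)
    0 M (Fintype.card (Sx r M)) N m (fun i => (cu w hw0).mon (m i)) f
    (zr w hw0 (psi w hw0 (φ q))) (fun i => (a_ctl r (cu w hw0) F R ∅).1 (m i))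
    (fun i => ⟨fun ψ => ∑ j, m i j * ψ j, by
      have hdot : ∀ l : Fin r, ∑ j, m i j * (Pi.single l 1 : Fin r → ℤ) j = m i l := by
        intro l
        rw [Finset.sum_eq_single l]
        · rw [Pi.single_eq_same, mul_one]
        · intro j _ hj
          rw [Pi.single_eq_of_ne hj, mul_zero]
        · intro h
          exact absurd (Finset.mem_univ _) h
      constructor
      · intro ψ hψ
        obtain ⟨l, -, rfl⟩ := Finset.mem_image.1 hψ
        show |∑ j, m i j * (Pi.single l 1 : Fin r → ℤ) j| ≤ _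
        rw [hdot]
        exact hM0 i l
      · rw [Finset.sum_image fun i _ j _ h => single_inj h]
        simp only [hdot]
        exact (sum_single (m i)).symm⟩) hli hspan (zr_nonneg hpq0) (fun z hz => zr_out hz)
    (zr_fin hpq0) (fun z hz j => by
      rw [hf]
      exact zr_le hpq0 hz _)
  have hN0 : (0 : ℝ) < N := by exact_mod_cast hNpos
  have hN1 : (1 : ℝ) ≤ N := by exact_mod_cast hNpos
  filter_upwards [hgw (ε / 2) (by positivity)] with n hn
  rw [Finset.sum_image fun i _ j _ h => single_inj h, Finset.sum_empty, cu_cnt_bad] at hn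
  have hch : ∑ i : Fin r, (cu w hw0).ht (Pi.single i 1) (R.s n) = (cu w hw0).ch (R.s n) := rfl
  rw [hch, mul_zero, mul_zero, add_zero, add_zero] at hn
  have hch0 : 0 ≤ (cu w hw0).ch (R.s n) := ch_nonneg a_ht R n
  rw [mul_one] at hnum2
  have h1 : ((Fintype.card (Sx r M) : ℝ) - N) * M * (cu w hw0).ch (R.s n) ≤
      ε / 2 * N * (cu w hw0).ch (R.s n) := by
    refine mul_le_mul_of_nonneg_right ?_ hch0
    rw [Fintype.card_coe]
    exact hnum2
  have h2 : ε / 2 * (cu w hw0).ch (R.s n) ≤ ε / 2 * N * (cu w hw0).ch (R.s n) := by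
    refine mul_le_mul_of_nonneg_right ?_ hch0
    nlinarith
  have h3 : N * (cu w hw0).cnt (fun z => (zr w hw0 (psi w hw0 (φ q)) z : ℤ)) (R.s n) ≤
      N * (ε * (cu w hw0).ch (R.s n)) := by
    refine hn.trans ?_
    linarith
  exact le_of_mul_le_mul_left h3 hN0

/-- The monomials of `P(w)` are close to each other if `P(w)` has few zeros. -/
theorem close_supp (hw : AlgebraicIndependent ℂ w) {P : MvPolynomial (Fin r) ℂ} (hP : P ≠ 0)
    (R : Rad (cu w hw0) (psi w hw0 (aeval w P))) (Z : ℂ → ℤ) (hZ0 : ∀ z, 0 ≤ Z z)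
    (hZf : (cu w hw0).LocFin (fun z => (Z z : ℤ)))
    (hZ1 : ∀ z ∈ (cu w hw0).U, (cu w hw0).val (psi w hw0 (aeval w P)) z = 0 → 1 ≤ Z z)
    (hsm : ∀ ε : ℝ, 0 < ε → ∀ᶠ n in atTop, (cu w hw0).cnt (fun z => (Z z : ℤ)) (R.s n) ≤
      ε * (cu w hw0).ch (R.s n)) (b b' : Fin r →₀ ℕ) (hb : b ∈ P.support) (hb' : b' ∈ P.support)
    (ε : ℝ) (hε : 0 < ε) : ∀ᶠ n in atTop,
      (cu w hw0).ht (fun j => (b j : ℤ) - b' j) (R.s n) ≤ ε * (cu w hw0).ch (R.s n) := by
  classical
  have hinj : Function.Injective (aeval w : MvPolynomial (Fin r) ℂ →ₐ[ℂ] Ent) := hw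
  have hP0 : psi w hw0 (aeval w P) ≠ 0 := fun h => hP (hinj (psi_inj w hw0 (by rw [h, map_zero, map_zero])))
  let k : ℕ := P.support.card
  have hk : 1 ≤ k := Finset.card_pos.2 (support_nonempty.2 hP)
  let E : Fin k ≃ P.support := P.support.equivFin.symm
  let mo : P.support → Fin r → ℤ := fun b j => (b.1 j : ℤ)
  let m : Fin (k + 1) → Fin r → ℤ := Fin.cons 0 fun i => mo (E i)
  let a : Fin (k + 1) → ℕ := Fin.cons 1 fun _ => 0
  let e : Fin (k + 1) → (cu w hw0).Mr := Fin.cons ((-1 : ℂ) • psi w hw0 (aeval w P)) fun i =>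
    coeff (E i).1 P • (cu w hw0).mon (mo (E i))
  have hmon : ∀ (b : Fin r →₀ ℕ) (x : ℂ), psi w hw0 (aeval w (monomial b x)) =
      x • (cu w hw0).mon (fun j => (b j : ℤ)) := by
    intro b x
    rw [← fs_coe b, psi_mono]
    rfl
  have hsumP : psi w hw0 (aeval w P) = ∑ b : P.support, coeff b.1 P • (cu w hw0).mon (mo b) := by
    conv_lhs => rw [P.as_sum]
    rw [map_sum, map_sum, ← Finset.sum_coe_sort]
    exact Finset.sum_congr rfl fun b _ => hmon _ _
  obtain ⟨c1, -, -, -, c5, -, -, c8, -⟩ := a_ctl r (cu w hw0) (psi w hw0 (aeval w P)) R ∅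
  have hctl : ∀ i, Ctl R (e i) (fun z => (cu w hw0).lam z (m i) +
      a i * Real.log ‖(cu w hw0).val (psi w hw0 (aeval w P)) z‖)
      (fun z => (cu w hw0).del z (m i) + a i * ((cu w hw0).ord z (psi w hw0 (aeval w P))).untop₀) ∅ 0 := by
    intro i
    refine Fin.cases ?_ (fun i => ?_) i
    · have h1 := c8 (-1) _ _ _ _ (c5 hP0)
      have h2 : (fun z => (cu w hw0).lam z (m 0) +
          (a 0 : ℕ) * Real.log ‖(cu w hw0).val (psi w hw0 (aeval w P)) z‖) =
          fun z => Real.log ‖(cu w hw0).val (psi w hw0 (aeval w P)) z‖ := by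
        funext z
        have e1 : m 0 = 0 := rfl
        have e2 : a 0 = 1 := rfl
        rw [e1, e2, lam_zero]
        push_cast
        ring
      have h3 : (fun z => (cu w hw0).del z (m 0) +
          (a 0 : ℕ) * ((cu w hw0).ord z (psi w hw0 (aeval w P))).untop₀) =
          fun z => ((cu w hw0).ord z (psi w hw0 (aeval w P))).untop₀ := by
        funext z
        have e1 : m 0 = 0 := rfl
        have e2 : a 0 = 1 := rfl
        rw [e1, e2, del_zero]
        push_cast
        ring
      rw [h2, h3]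
      exact h1
    · have h1 := c8 (coeff (E i).1 P) _ _ _ _ (c1 (mo (E i)))
      have h2 : (fun z => (cu w hw0).lam z (m i.succ) +
          (a i.succ : ℕ) * Real.log ‖(cu w hw0).val (psi w hw0 (aeval w P)) z‖) =
          fun z => (cu w hw0).lam z (mo (E i)) := by
        funext z
        have e1 : m i.succ = mo (E i) := rfl
        have e2 : a i.succ = 0 := rfl
        rw [e1, e2]
        push_cast
        ring
      have h3 : (fun z => (cu w hw0).del z (m i.succ) +
          (a i.succ : ℕ) * ((cu w hw0).ord z (psi w hw0 (aeval w P))).untop₀) =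
          fun z => (cu w hw0).del z (mo (E i)) := by
        funext z
        have e1 : m i.succ = mo (E i) := rfl
        have e2 : a i.succ = 0 := rfl
        rw [e1, e2]
        push_cast
        ring
      rw [h2, h3]
      exact h1
  have hsum0 : ∑ i, e i = 0 := by
    rw [Fin.sum_univ_succ]
    have h1 : e 0 = (-1 : ℂ) • psi w hw0 (aeval w P) := rfl
    have h2 : ∑ i : Fin k, e i.succ = psi w hw0 (aeval w P) := by
      rw [hsumP]
      exact Fintype.sum_equiv E _ _ fun i => rfl
    rw [h1, h2, neg_smul, one_smul, neg_add_cancel]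
  have hli : LinearIndependent ℂ (fun i : Fin k => e i.succ) := by
    rw [Fintype.linearIndependent_iff]
    intro g hg
    have h1 : ∑ b : P.support, monomial b.1 (g (E.symm b) * coeff b.1 P) = 0 := by
      apply hinj
      apply psi_inj w hw0
      rw [map_zero, map_zero, map_sum, map_sum, ← hg]
      refine Fintype.sum_equiv E.symm _ _ fun b => ?_
      rw [hmon, mul_smul]
      show _ = g (E.symm b) • (coeff (E (E.symm b)).1 P • (cu w hw0).mon (mo (E (E.symm b))))
      rw [Equiv.apply_symm_apply]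
    intro i
    have h2 := congrArg (coeff (E i).1) h1
    rw [coeff_sum, Finset.sum_eq_single (E i), coeff_monomial, if_pos rfl, coeff_zero,
      Equiv.symm_apply_apply] at h2
    · exact (mul_eq_zero.1 h2).resolve_right (mem_support_iff.1 (E i).2)
    · intro b _ hb
      rw [coeff_monomial, if_neg]
      exact fun h => hb (Subtype.ext h)
    · intro h
      exact absurd (Finset.mem_univ _) h
  have hcl := a_cl r (cu w hw0) (psi w hw0 (aeval w P)) R ∅ 0 k m a e Z hP0 hk hctl hsum0 hli (by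
    intro i
    refine Fin.cases (le_of_eq rfl) (fun i => ?_) i
    exact Nat.zero_le _) hZ0 hZf (fun z hz _ h => hZ1 z hz h) (E.symm ⟨b, hb⟩).succ
    (E.symm ⟨b', hb'⟩).succ rfl rfl
  have hmm : m (E.symm ⟨b, hb⟩).succ - m (E.symm ⟨b', hb'⟩).succ =
      fun j => (b j : ℤ) - b' j := by
    show mo (E (E.symm ⟨b, hb⟩)) - mo (E (E.symm ⟨b', hb'⟩)) = _
    rw [Equiv.apply_symm_apply, Equiv.apply_symm_apply]
    rfl
  rw [hmm] at hcl
  have hk0 : (0 : ℝ) < (k : ℝ) ^ 2 := by positivity
  filter_upwards [hcl (ε / 2) (by positivity), hsm (ε / (4 * (k : ℝ) ^ 2)) (by positivity)]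
    with n h1 h2
  rw [cu_cnt_bad, Finset.sum_empty] at h1
  have hch0 : 0 ≤ (cu w hw0).ch (R.s n) := ch_nonneg a_ht R n
  have h3 : 2 * ((k : ℝ) ^ 2 * (cu w hw0).cnt (fun z => (Z z : ℤ)) (R.s n)) ≤
      ε / 2 * (cu w hw0).ch (R.s n) := by
    have h4 := mul_le_mul_of_nonneg_left h2 (by positivity : (0 : ℝ) ≤ 2 * (k : ℝ) ^ 2)
    have h5 : 2 * (k : ℝ) ^ 2 * (ε / (4 * (k : ℝ) ^ 2) * (cu w hw0).ch (R.s n)) =
        ε / 2 * (cu w hw0).ch (R.s n) := by
      field_simp
      ring
    linarith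
  refine h1.trans ?_
  push_cast
  linarith

end Pool.Agent.H21bl
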