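import Mathlib
import Pool.Agent.H21bl.LT.AnF

/-!
The functional on exponents for entire functions.
-/

set_option autoImplicit false

namespace Pool.Agent.H21bl

open Filter Topology Metric Set MvPolynomial Module
open Pool.Agent.Y192.OG Pool.Agent.Y192.KC Pool.Agent.W603.BP Pool.Agent.Y220.KG
open Pool.Agent.H159R3.NV (Ent ev_ne)
open Pool.Agent.Y742.DI Pool.Agent.N754.LT

theorem cnt_sum {N : ℕ} (c : Curve N) {ι : Type} (s : Finset ι) (E : ι → ℂ → ℝ)
    (h : ∀ i ∈ s, c.LocFin (E i)) : c.LocFin (fun z => ∑ i ∈ s, E i z) ∧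
      ∀ R, c.cnt (fun z => ∑ i ∈ s, E i z) R = ∑ i ∈ s, c.cnt (E i) R := by
  classical
  induction s using Finset.induction_on with
  | empty =>
    simp only [Finset.sum_empty]
    constructor
    · intro R
      have h1 : {z : ℂ | c.r0 + 1 ≤ ‖z‖ ∧ ‖z‖ ≤ R ∧ (0 : ℝ) ≠ 0} = ∅ := by
        ext z
        simp
      rw [h1]
      exact Set.finite_empty
    · intro R
      unfold Curve.cnt
      rw [finsum_mem_eq_zero_of_forall_eq_zero]
      intro z _
      rw [zero_mul]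
  | insert i s hi ih =>
    obtain ⟨h1, h2⟩ := ih fun j hj => h j (Finset.mem_insert_of_mem hj)
    obtain ⟨h3, h4⟩ := (a_cnt N c).1 (E i) (fun z => ∑ i ∈ s, E i z)
      (h i (Finset.mem_insert_self _ _)) h1
    simp only [Finset.sum_insert hi]
    refine ⟨h3, fun R => ?_⟩
    rw [h4, h2]

variable {r : ℕ} {w : Fin r → Ent} {hw0 : ∀ j z, (w j : ℂ → ℂ) z ≠ 0}

theorem ev_psi (Q : MvPolynomial (Fin r) ℂ) :
    (cu w hw0).ev (aeval (fun j => AddMonoidAlgebra.single (Pi.single j 1 : Fin r → ℤ) (1 : ℂ)) Q) =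
      psi w hw0 (aeval w Q) := by
  have h1 : ((cu w hw0).ev.comp (aeval fun j =>
      AddMonoidAlgebra.single (Pi.single j 1 : Fin r → ℤ) (1 : ℂ))) =
      (psi w hw0).comp (aeval w) := by
    apply MvPolynomial.algHom_ext
    intro j
    rw [AlgHom.comp_apply, AlgHom.comp_apply, aeval_X, aeval_X, (cu w hw0).ev_single, one_smul]
    have h2 := psi_mon w hw0 (Pi.single j 1)
    have h3 : ∏ i, w i ^ (Pi.single j 1 : Fin r → ℕ) i = w j := by
      rw [Finset.prod_eq_single j]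
      · rw [Pi.single_eq_same, pow_one]
      · intro i _ hi
        rw [Pi.single_eq_of_ne hi, pow_zero]
      · intro h
        exact absurd (Finset.mem_univ _) h
    rw [h3] at h2
    rw [h2]
    congr 1
    funext i
    by_cases hij : i = j
    · subst hij
      rw [Pi.single_eq_same, Pi.single_eq_same]
      rfl
    · rw [Pi.single_eq_of_ne hij, Pi.single_eq_of_ne hij]
      rfl
  exact DFunLike.congr_fun h1 Q

/-- exponents of small height -/
def low {F : (cu w hw0).Mr} (R : Rad (cu w hw0) F) : Submodule ℤ (Fin r → ℤ) where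
  carrier := {m | ∀ ε : ℝ, 0 < ε → ∀ᶠ n in atTop,
    (cu w hw0).ht m (R.s n) ≤ ε * (cu w hw0).ch (R.s n)}
  add_mem' := by
    intro a b ha hb ε hε
    filter_upwards [ha (ε / 2) (by positivity), hb (ε / 2) (by positivity)] with n h1 h2
    have h3 := ((a_ht r (cu w hw0)).1 _ (R.hs n)).2.1 a b
    linarith
  zero_mem' := by
    intro ε hε
    refine Filter.Eventually.of_forall fun n => ?_
    have h3 := ((a_ht r (cu w hw0)).1 _ (R.hs n)).2.2.1 0 0
    rw [zero_smul] at h3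
    rw [h3]
    have h4 : 0 ≤ (cu w hw0).ch (R.s n) := ch_nonneg a_ht R n
    simp only [Int.cast_zero, abs_zero, zero_mul]
    positivity
  smul_mem' := by
    intro c b hb ε hε
    filter_upwards [hb (ε / (|(c : ℝ)| + 1)) (by positivity)] with n h1
    rw [((a_ht r (cu w hw0)).1 _ (R.hs n)).2.2.1 c b]
    have h4 : 0 ≤ (cu w hw0).ch (R.s n) := ch_nonneg a_ht R n
    have h5 := mul_le_mul_of_nonneg_left h1 (abs_nonneg (c : ℝ))
    refine h5.trans ?_
    have h6 : |(c : ℝ)| * (ε / (|(c : ℝ)| + 1)) ≤ ε := by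
      rw [← mul_div_assoc, div_le_iff₀ (by positivity)]
      have := abs_nonneg (c : ℝ)
      nlinarith
    calc |(c : ℝ)| * (ε / (|(c : ℝ)| + 1) * (cu w hw0).ch (R.s n)) =
        |(c : ℝ)| * (ε / (|(c : ℝ)| + 1)) * (cu w hw0).ch (R.s n) := by ring
      _ ≤ _ := mul_le_mul_of_nonneg_right h6 h4

theorem mem_low {F : (cu w hw0).Mr} (R : Rad (cu w hw0) F) (m : Fin r → ℤ) :
    m ∈ low R ↔ ∀ ε : ℝ, 0 < ε → ∀ᶠ n in atTop,
      (cu w hw0).ht m (R.s n) ≤ ε * (cu w hw0).ch (R.s n) := Iff.rfl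

theorem low_sat {F : (cu w hw0).Mr} (R : Rad (cu w hw0) F) (k : ℤ) (m : Fin r → ℤ) (hk : k ≠ 0)
    (h : k • m ∈ low R) : m ∈ low R := by
  rw [mem_low] at h ⊢
  intro ε hε
  have hk1 : (1 : ℝ) ≤ |(k : ℝ)| := by
    have h1 := Int.one_le_abs hk
    exact_mod_cast h1
  filter_upwards [h ε hε] with n h1
  rw [((a_ht r (cu w hw0)).1 _ (R.hs n)).2.2.1 k m] at h1
  have h2 := ((a_ht r (cu w hw0)).1 _ (R.hs n)).1 m
  nlinarith

theorem low_ne {F : (cu w hw0).Mr} (R : Rad (cu w hw0) F)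
    (h : ∀ j, (Pi.single j 1 : Fin r → ℤ) ∈ low R) : False := by
  have h1 : ∀ᶠ n in atTop, ∀ j : Fin r, (cu w hw0).ht (Pi.single j 1) (R.s n) ≤
      1 / (2 * (r + 1) : ℝ) * (cu w hw0).ch (R.s n) :=
    (Filter.eventually_all).2 fun j => h j _ (by positivity)
  obtain ⟨n, h2, h3⟩ := (h1.and (ch_pos R)).exists
  have h4 : (cu w hw0).ch (R.s n) ≤ ∑ _j : Fin r, 1 / (2 * (r + 1) : ℝ) * (cu w hw0).ch (R.s n) :=
    Finset.sum_le_sum fun j _ => h2 j
  rw [Finset.sum_const, Finset.card_univ, Fintype.card_fin, nsmul_eq_mul] at h4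
  have h5 : (r : ℝ) * (1 / (2 * (r + 1) : ℝ)) ≤ 1 / 2 := by
    rw [mul_one_div, div_le_div_iff₀ (by positivity) (by norm_num)]
    have : (0 : ℝ) ≤ r := Nat.cast_nonneg _
    linarith
  nlinarith

theorem nonconst_of_ind (hw : AlgebraicIndependent ℂ w) (j : Fin r) (a : ℂ) :
    w j ≠ algebraMap ℂ Ent a := by
  intro h
  have h1 : (X j - C a : MvPolynomial (Fin r) ℂ) = 0 := by
    apply hw
    rw [map_sub, aeval_X, aeval_C, map_zero, h, sub_self]
  have h2 := congrArg (coeff (Finsupp.single j 1)) h1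
  have h3 : (0 : Fin r →₀ ℕ) ≠ Finsupp.single j 1 := by
    intro h3
    have h4 := DFunLike.congr_fun h3 j
    rw [Finsupp.single_eq_same] at h4
    exact zero_ne_one h4
  rw [coeff_sub, coeff_C, if_neg h3, coeff_zero, sub_zero] at h2
  have h5 : coeff (Finsupp.single j 1) (X j : MvPolynomial (Fin r) ℂ) = 1 := by
    rw [coeff_X, if_pos rfl]
  rw [h5] at h2
  exact one_ne_zero h2

include hw0 in
theorem funE {n : ℕ} (hr : 1 ≤ r) (hw : AlgebraicIndependent ℂ w) (U : Finset (Fin n))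
    (a : Fin n → Fin r → ℤ) (hspan : ∀ j, Pi.single j 1 ∈ Submodule.span ℤ (a '' U))
    (p q : Fin n → MvPolynomial (Fin r) ℂ)
    (hqU : ∀ i ∈ U, ∀ b ∈ (q i).support, ∀ b' ∈ (q i).support, b = b')
    (hpq : ∀ i, i ∉ U → IsRelPrime (q i) (p i)) (hq : ∀ i, q i ≠ 0) (y : Fin n → Ent)
    (hqp : ∀ i, aeval w (q i) * y i = aeval w (p i)) :
    ∃ l : Fin r → ℤ, (∃ i0 ∈ U, ∑ j, l j * a i0 j ≠ 0) ∧
      ∀ i, ∀ b ∈ (q i).support, ∀ b' ∈ (q i).support,
        ∑ j, l j * (b j : ℤ) = ∑ j, l j * (b' j : ℤ) := by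
  classical
  have hinj : Function.Injective (aeval w : MvPolynomial (Fin r) ℂ →ₐ[ℂ] Ent) := hw
  let Q : MvPolynomial (Fin r) ℂ := ∏ i ∈ Uᶜ, q i
  have hQ : Q ≠ 0 := Finset.prod_ne_zero_iff.2 fun i _ => hq i
  have hne : ∀ P : MvPolynomial (Fin r) ℂ, P ≠ 0 → psi w hw0 (aeval w P) ≠ 0 := fun P hP h =>
    hP (hinj (psi_inj w hw0 (by rw [h, map_zero, map_zero])))
  obtain ⟨R⟩ : Nonempty (Rad (cu w hw0) (psi w hw0 (aeval w Q))) := by
    rw [← ev_psi]
    refine a_rad r (cu w hw0) _ ?_ (cu_trans w hw0 hr (nonconst_of_ind hw))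
    rw [ev_psi]
    exact hne Q hQ
  have hfew : ∀ i ∈ Uᶜ, ∀ ε : ℝ, 0 < ε → ∀ᶠ n in atTop,
      (cu w hw0).cnt (fun z => (zr w hw0 (psi w hw0 (aeval w (q i))) z : ℤ)) (R.s n) ≤
        ε * (cu w hw0).ch (R.s n) := fun i hi ε hε =>
    few_zeros R hr hw (p i) (q i) (hq i) (hpq i (Finset.mem_compl.1 hi)) (y i) (hqp i) ε hε
  let Z : ℂ → ℤ := fun z => ∑ i ∈ Uᶜ, zr w hw0 (psi w hw0 (aeval w (q i))) z
  have hZcast : (fun z => ((Z z : ℤ) : ℝ)) =
      fun z => ∑ i ∈ Uᶜ, ((zr w hw0 (psi w hw0 (aeval w (q i))) z : ℤ) : ℝ) := by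
    funext z
    simp only [Z]
    push_cast
    rfl
  obtain ⟨hZf, hZc⟩ := cnt_sum (cu w hw0) Uᶜ
    (fun i z => ((zr w hw0 (psi w hw0 (aeval w (q i))) z : ℤ) : ℝ))
    (fun i _ => zr_fin (hne (q i) (hq i)))
  rw [← hZcast] at hZf hZc
  have hZ0 : ∀ z, 0 ≤ Z z := fun z =>
    Finset.sum_nonneg fun i _ => zr_nonneg (hne (q i) (hq i)) z
  have hZ1 : ∀ z ∈ (cu w hw0).U, (cu w hw0).val (psi w hw0 (aeval w Q)) z = 0 → 1 ≤ Z z := by
    intro z hz h
    rw [val_psi w hw0 _ hz] at h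
    have h1 : ((aeval w Q : Ent) : ℂ → ℂ) (Complex.exp z) =
        ∏ i ∈ Uᶜ, ((aeval w (q i) : Ent) : ℂ → ℂ) (Complex.exp z) := by
      simp only [Q]
      rw [map_prod, SubmonoidClass.coe_finsetProd, Finset.prod_apply]
    rw [h1, Finset.prod_eq_zero_iff] at h
    obtain ⟨i, hi, h2⟩ := h
    have h3 : 1 ≤ zr w hw0 (psi w hw0 (aeval w (q i))) z :=
      one_le_zr (hne (q i) (hq i)) hz (by rw [val_psi w hw0 _ hz]; exact h2)
    refine h3.trans ?_
    exact Finset.single_le_sum (f := fun i => zr w hw0 (psi w hw0 (aeval w (q i))) z)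
      (fun i _ => zr_nonneg (hne (q i) (hq i)) z) hi
  have hsm : ∀ ε : ℝ, 0 < ε → ∀ᶠ n in atTop,
      (cu w hw0).cnt (fun z => (Z z : ℤ)) (R.s n) ≤ ε * (cu w hw0).ch (R.s n) := by
    intro ε hε
    have h1 : ∀ᶠ n in atTop, ∀ i ∈ Uᶜ,
        (cu w hw0).cnt (fun z => (zr w hw0 (psi w hw0 (aeval w (q i))) z : ℤ)) (R.s n) ≤
          ε / (Uᶜ.card + 1) * (cu w hw0).ch (R.s n) :=
      (Filter.eventually_all_finset _).2 fun i hi => hfew i hi _ (by positivity)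
    filter_upwards [h1] with n h2
    have h3 : 0 ≤ (cu w hw0).ch (R.s n) := ch_nonneg a_ht R n
    rw [hZc]
    refine (Finset.sum_le_sum h2).trans ?_
    rw [Finset.sum_const, nsmul_eq_mul]
    have h4 : (Uᶜ.card : ℝ) * (ε / (Uᶜ.card + 1)) ≤ ε := by
      rw [← mul_div_assoc, div_le_iff₀ (by positivity)]
      nlinarith
    calc (Uᶜ.card : ℝ) * (ε / (Uᶜ.card + 1) * (cu w hw0).ch (R.s n)) =
        (Uᶜ.card : ℝ) * (ε / (Uᶜ.card + 1)) * (cu w hw0).ch (R.s n) := by ring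
      _ ≤ _ := mul_le_mul_of_nonneg_right h4 h3
  have hlow : ∀ b ∈ Q.support, ∀ b' ∈ Q.support, (fun j => (b j : ℤ) - b' j) ∈ low R := by
    intro b hb b' hb'
    rw [mem_low]
    exact fun ε hε => close_supp hw hQ R Z hZ0 hZf hZ1 hsm b b' hb hb' ε hε
  have hhigh : ∃ i ∈ U, a i ∉ low R := by
    by_contra hcon
    push Not at hcon
    refine low_ne R fun j => ?_
    refine Submodule.span_le.2 ?_ (hspan j)
    rintro _ ⟨i, hi, rfl⟩
    exact hcon i hi
  obtain ⟨i0, hi0, hai0⟩ := hhigh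
  obtain ⟨l, hl, hl0⟩ := exists_functional (low R) (fun m b => low_sat R m b) (a i0) hai0
  refine ⟨l, ⟨i0, hi0, hl0⟩, fun i b hb b' hb' => ?_⟩
  by_cases hi : i ∈ U
  · rw [hqU i hi b hb b' hb']
  · refine prod_hom l Uᶜ q (fun i _ => hq i) (fun c hc c' hc' => ?_) i (Finset.mem_compl.2 hi)
      b hb b' hb'
    have h1 := hl _ (hlow c hc c' hc')
    unfold wtl
    rw [← sub_eq_zero, ← Finset.sum_sub_distrib, ← h1]
    exact Finset.sum_congr rfl fun j _ => (mul_sub _ _ _).symm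

end Pool.Agent.H21bl
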