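import Mathlib
import Pool.Agent.H21bl.LT.AnM
import Pool.Agent.N754.FG.Fun
import Pool.Agent.W235.RM.Final

/-!
The alternative for entire curves: second points in the fibres, or Laurent curves.
-/

set_option autoImplicit false

namespace Pool.Agent.H21bl

open Filter Topology MvPolynomial
open Pool.Agent.N754.LT Pool.Agent.N754.FG
open Pool.Agent.H159R3.NV (Ent ev_ne)
open Pool.Agent.H159R3.Exp (Laur)
open Pool.Agent.W235.RM
open scoped NumberField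

variable {n : ℕ} {ι : Type}

theorem val_aeval (f : Fin n → Ent) (P : MvPolynomial (Fin n) ℂ) (z : ℂ) :
    ((aeval f P : Ent) : ℂ → ℂ) z = eval (fun i => (f i : ℂ → ℂ) z) P := by
  have h1 : (((Pi.evalAlgHom ℂ (fun _ : ℂ => ℂ) z).comp Ent.val).comp (aeval f)) =
      aeval (fun i => (f i : ℂ → ℂ) z) := by
    apply MvPolynomial.algHom_ext
    intro i
    rw [AlgHom.comp_apply, aeval_X, aeval_X]
    rfl
  have h2 := DFunLike.congr_fun h1 P
  rw [ae_eval] at h2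
  exact h2

/-- **The alternative for entire curves.** -/
theorem alt_entire [Finite ι] (U : Finset (Fin n)) (F : ι → MvPolynomial (Fin n) ℂ)
    (f : Fin n → Ent) (hF : ∀ l, aeval f (F l) = 0) (hU : ∀ i ∈ U, ∀ z, (f i : ℂ → ℂ) z ≠ 0)
    (hnc : ∃ i, ∀ c : ℂ, f i ≠ algebraMap ℂ Ent c) (z0 : ℂ) :
    (∀ᶠ t in (nu z0 : Filter ℂ), ∃ z' : Fin n → ℂ, (∀ l, eval z' (F l) = 0) ∧
      (∀ i ∈ U, z' i = (f i : ℂ → ℂ) t) ∧ z' ≠ fun i => (f i : ℂ → ℂ) t) ∨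
    ∀ᶠ t in 𝓝[≠] z0, ∃ v : ℂ → Fin n → ℂ, (∀ j, Laur fun s => v s j) ∧
      (∀ i s, s ≠ 0 → eval (v s) (F i) = 0) ∧ (v 1 = fun j => (f j : ℂ → ℂ) t) ∧
      ∃ j, v 2 j ≠ v 1 j := by
  classical
  have hθ : (gE z0).comp (algebraMap ℂ Ent) =
      (gc (nu z0)).comp ((Pi.constRingHom ℂ ℂ).comp (RingHom.id ℂ)) := RingHom.ext fun c => rfl
  rcases dat_or2 U F f hF (⊤ : Subgroup Entˣ) (fun m g _ hne c hc => unitE m g hne c hc)
    (fun g _ m hm h => tfE g m hm h) (fun i hi => ⟨mkU (f i) (hU i hi), trivial, rfl⟩) hnc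
    (gE z0) (gE_inj z0) with h | ⟨⟨d⟩⟩
  · left
    obtain ⟨z, h1, h2, h3⟩ := h
    rw [hθ] at h1
    have h4 := gc_second (nu z0) (RingHom.id ℂ) U F (fun t i => (f i : ℂ → ℂ) t)
      ⟨z, h1, h2, h3⟩
    filter_upwards [h4] with t ht
    obtain ⟨z', g1, g2, g3⟩ := ht
    exact ⟨z', g1, g2, g3⟩
  · right
    obtain ⟨l, ⟨i0, hi0, hl0⟩, hom⟩ := funE (w := fun j => (d.w j : Ent))
      (hw0 := fun j z => unit_ne (d.w j) z) d.hr d.hw U d.a d.hspan d.p d.q d.hqU d.hpq d.hq f d.hqp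
    filter_upwards [curve_of_fun (rpE z0) d l i0 hi0 hl0 hom F hF] with t ht
    exact ht

/-- points which are not alone in their fibres are on Laurent curves -/
def Covered {K : Type} [Field K] {κ : Type} (σ : K →+* ℂ) (F : ι → MvPolynomial (Fin n) (𝓞 K))
    (G : κ → MvPolynomial (Fin n) (𝓞 K)) (U : Finset (Fin n)) : Prop :=
  ∀ z z' : Fin n → ℂ, (∀ l, eval₂ (σ.comp (algebraMap (𝓞 K) K)) z (F l) = 0) →
    (∃ l, eval₂ (σ.comp (algebraMap (𝓞 K) K)) z (G l) ≠ 0) →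
    (∀ l, eval₂ (σ.comp (algebraMap (𝓞 K) K)) z' (F l) = 0) → (∀ i ∈ U, z' i = z i) → z' ≠ z →
    ∃ v : ℂ → Fin n → ℂ, (∀ j, Laur fun t => v t j) ∧
      (∀ l t, t ≠ 0 → eval₂ (σ.comp (algebraMap (𝓞 K) K)) (v t) (F l) = 0) ∧ v 1 = z ∧
      ∃ t, t ≠ 0 ∧ v t ≠ z

/-- the analytic half -/
theorem entire_of_gm {K : Type} [Field K] {κ : Type} [Finite ι] (σ : K →+* ℂ)
    (F : ι → MvPolynomial (Fin n) (𝓞 K)) (G : κ → MvPolynomial (Fin n) (𝓞 K))
    (U : Finset (Fin n))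
    (hU : ∀ z : Fin n → ℂ, (∀ l, eval₂ (σ.comp (algebraMap (𝓞 K) K)) z (F l) = 0) →
      ∀ i ∈ U, z i ≠ 0)
    (hcov : Covered σ F G U) (h : GmCurvesIn σ F G) : EntireCurvesIn σ F G := by
  classical
  set φ : 𝓞 K →+* ℂ := σ.comp (algebraMap (𝓞 K) K) with hφ
  intro f hfd hfF hnc z0 l0
  by_contra hcon
  have hfj : ∀ j, Differentiable ℂ (fun z => f z j) := fun j => by
    rw [differentiable_pi] at hfd
    exact hfd j
  let fE : Fin n → Ent := fun j => ⟨fun z => f z j, hfj j⟩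
  have hfE : ∀ j z, (fE j : ℂ → ℂ) z = f z j := fun j z => rfl
  let FC : ι → MvPolynomial (Fin n) ℂ := fun l => map φ (F l)
  have hev : ∀ (z : Fin n → ℂ) (P : MvPolynomial (Fin n) (𝓞 K)), eval z (map φ P) = eval₂ φ z P :=
    fun z P => by rw [eval_map]
  have hFE : ∀ l, aeval fE (FC l) = 0 := by
    intro l
    apply Subtype.ext
    funext z
    rw [val_aeval]
    show eval (fun i => f z i) (map φ (F l)) = 0
    rw [hev]
    exact hfF z l
  have hGne : ∀ᶠ t in 𝓝[≠] z0, eval₂ φ (f t) (G l0) ≠ 0 := by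
    have h1 : Differentiable ℂ fun t => eval₂ φ (f t) (G l0) := by
      have h2 : (fun t => eval₂ φ (f t) (G l0)) = fun t => eval (f t) (map φ (G l0)) :=
        funext fun t => (hev _ _).symm
      rw [h2]
      exact Pool.Agent.H159R3.Exp.differentiable_eval hfd _
    exact ev_ne h1 hcon z0
  have hkey : ∀ t, eval₂ φ (f t) (G l0) ≠ 0 → ∀ v : ℂ → Fin n → ℂ, (∀ j, Laur fun s => v s j) →
      (∀ l s, s ≠ 0 → eval₂ φ (v s) (F l) = 0) → v 1 = f t → (∃ s, s ≠ 0 ∧ v s ≠ f t) → False := by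
    intro t ht v hv hvF hv1 ⟨s, hs, hvs⟩
    apply ht
    rw [← hv1]
    exact h v hv hvF ⟨s, 1, hs, one_ne_zero, by rw [hv1]; exact hvs⟩ l0 1 one_ne_zero
  rcases alt_entire U FC fE hFE (fun i hi z => hU (f z) (fun l => hfF z l) i hi) (by
    obtain ⟨a, b, hab⟩ := hnc
    obtain ⟨j, hj⟩ := Function.ne_iff.1 hab
    refine ⟨j, fun c hc => hj ?_⟩
    have h1 : ∀ z, f z j = c := fun z => congrFun (congrArg Subtype.val hc) z
    rw [h1, h1]) z0 with h1 | h1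
  · obtain ⟨t, ⟨z', g1, g2, g3⟩, h2⟩ := (h1.and (nu_le z0 hGne)).exists
    obtain ⟨v, k1, k2, k3, k4⟩ := hcov (f t) z' (fun l => hfF t l) ⟨l0, h2⟩
      (fun l => by rw [← hev]; exact g1 l) g2 g3
    exact hkey t h2 v k1 k2 k3 k4
  · obtain ⟨t, ⟨v, g1, g2, g3, j, g4⟩, h2⟩ := (h1.and hGne).exists
    refine hkey t h2 v g1 (fun l s hs => ?_) g3 ⟨2, two_ne_zero, fun h3 => g4 ?_⟩
    · rw [← hev]
      exact g2 l s hs
    · rw [h3, g3]

end Pool.Agent.H21bl
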