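import Mathlib
import Pool.Agent.H21bl.LT.AnE
import Pool.Agent.N754.LT.Ari

/-!
The arithmetic half: infinitely many integral points give Laurent curves.
-/

set_option autoImplicit false

namespace Pool.Agent.H21bl

open Filter Topology MvPolynomial NumberField IsDedekindDomain
open Pool.Agent.N754.LT
open Pool.Agent.Y742.SF Pool.Agent.Y742.AR
open Pool.Agent.H159R3.Exp (Laur FinitelyManyIntegral intPoints)
open Pool.Agent.W235.RM
open scoped NumberField

section germs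

variable {M : Type} [Field M] [NumberField M] (𝒰 : Ultrafilter ℕ) (τ : M →+* ℂ)

/-- complex values of germs -/
noncomputable def thA : BA M 𝒰 →+* GC ℕ 𝒰 where
  toFun x := gc 𝒰 fun t => τ (rep (K := M) (𝒰 := 𝒰) x t)
  map_one' := by
    rw [← map_one (gc 𝒰), gc_eq]
    filter_upwards [Pool.Agent.Y742.AR.rep_one (K := M) (𝒰 := 𝒰)] with t h
    have h' : rep (K := M) (𝒰 := 𝒰) (1 : BA M 𝒰) t = 1 := h
    rw [h', map_one]
    rfl
  map_mul' x y := by
    rw [← map_mul (gc 𝒰), gc_eq]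
    filter_upwards [Pool.Agent.Y742.AR.rep_mul (K := M) (𝒰 := 𝒰) x y] with t h
    have h' : rep (K := M) (𝒰 := 𝒰) (x * y : BA M 𝒰) t =
      rep (K := M) (𝒰 := 𝒰) x t * rep (K := M) (𝒰 := 𝒰) y t := h
    rw [h', map_mul]
    rfl
  map_zero' := by
    rw [← map_zero (gc 𝒰), gc_eq]
    filter_upwards [Pool.Agent.Y742.AR.rep_zero (K := M) (𝒰 := 𝒰)] with t h
    have h' : rep (K := M) (𝒰 := 𝒰) (0 : BA M 𝒰) t = 0 := h
    rw [h', map_zero]
    rfl
  map_add' x y := by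
    rw [← map_add (gc 𝒰), gc_eq]
    filter_upwards [Pool.Agent.Y742.AR.rep_add (K := M) (𝒰 := 𝒰) x y] with t h
    have h' : rep (K := M) (𝒰 := 𝒰) (x + y : BA M 𝒰) t =
      rep (K := M) (𝒰 := 𝒰) x t + rep (K := M) (𝒰 := 𝒰) y t := h
    rw [h', map_add]
    rfl

theorem thA_const (c : M) : thA 𝒰 τ (algebraMap M (BA M 𝒰) c) = gc 𝒰 fun _ => τ c := by
  show gc 𝒰 (fun t => τ (rep (K := M) (𝒰 := 𝒰) (algebraMap M (BA M 𝒰) c) t)) = _
  rw [gc_eq]
  filter_upwards [Pool.Agent.Y742.AR.rep_cg (K := M) (𝒰 := 𝒰) c] with t h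
  have h' : rep (K := M) (𝒰 := 𝒰) (algebraMap M (BA M 𝒰) c) t = c := h
  rw [h']

/-- the germ of a sequence -/
noncomputable def gA (f : ℕ → M) : BA M 𝒰 := (gm 𝒰 f : GK M 𝒰)

theorem rep_gA (f : ℕ → M) : ∀ᶠ t in (𝒰 : Filter ℕ), rep (K := M) (𝒰 := 𝒰) (gA 𝒰 f) t = f t :=
  rep_gm (K := M) f

theorem thA_gA (f : ℕ → M) : thA 𝒰 τ (gA 𝒰 f) = gc 𝒰 fun t => τ (f t) := by
  show gc 𝒰 (fun t => τ (rep (K := M) (𝒰 := 𝒰) (gA 𝒰 f) t)) = _
  rw [gc_eq]
  filter_upwards [rep_gA 𝒰 f] with t h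
  rw [h]

theorem aeval_gA {n : ℕ} (x : ℕ → Fin n → M) (P : MvPolynomial (Fin n) M) :
    ∀ᶠ t in (𝒰 : Filter ℕ), rep (K := M) (𝒰 := 𝒰) (aeval (fun i => gA 𝒰 fun t => x t i) P) t =
      eval (x t) P := by
  have h1 := (rpA M 𝒰).rep_aeval (fun i => gA 𝒰 fun t => x t i) P
  have h2 : ∀ᶠ t in (𝒰 : Filter ℕ), ∀ i, rep (K := M) (𝒰 := 𝒰) (gA 𝒰 fun t => x t i) t = x t i :=
    (Filter.eventually_all).2 fun i => rep_gA 𝒰 fun t => x t i
  have h1' : ∀ᶠ t in (𝒰 : Filter ℕ),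
      rep (K := M) (𝒰 := 𝒰) (aeval (fun i => gA 𝒰 fun t => x t i) P) t =
      eval (fun i => rep (K := M) (𝒰 := 𝒰) (gA 𝒰 fun t => x t i) t) P := h1
  filter_upwards [h1', h2] with t h3 h4
  rw [h3]
  congr 1
  exact congrArg eval (funext h4)

end germs

variable {n : ℕ} {ι : Type}

/-- the arithmetic half -/
theorem integral_of_gm {K : Type} [Field K] [NumberField K] {κ : Type} [Finite ι] (σ : K →+* ℂ)
    (F : ι → MvPolynomial (Fin n) (𝓞 K)) (G : κ → MvPolynomial (Fin n) (𝓞 K))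
    (U : Finset (Fin n))
    (hU : ∀ z : Fin n → ℂ, (∀ l, eval₂ (σ.comp (algebraMap (𝓞 K) K)) z (F l) = 0) →
      ∀ i ∈ U, z i ≠ 0)
    (hcov : Covered σ F G U) (h : GmCurvesIn σ F G) : FinitelyManyIntegral F G := by
  classical
  intro L _ _ _ S hS
  by_contra hinf
  let x : ℕ → Fin n → L := fun t => (Set.Infinite.natEmbedding _ hinf t : Fin n → L)
  have hx : ∀ t, x t ∈ intPoints F L S \ intPoints G L S := fun t =>
    (Set.Infinite.natEmbedding _ hinf t).2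
  have hxinj : Function.Injective x := fun s t hst =>
    (Set.Infinite.natEmbedding _ hinf).injective (Subtype.ext hst)
  obtain ⟨M, _, _, _, hgal, hi⟩ := exists_big L
  obtain ⟨S', hS', hSS'⟩ := ext_int L M S hS
  obtain ⟨D, hD⟩ := exists_PD hi S' hS'
  -- embeddings
  let ψ : K →+* M := (algebraMap L M).comp (algebraMap K L)
  let : Algebra K M := ψ.toAlgebra
  let : Algebra K ℂ := σ.toAlgebra
  have hST : IsScalarTower K L M := IsScalarTower.of_algebraMap_eq fun _ => rfl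
  have halg : Algebra.IsAlgebraic K M := by
    have := NumberField.to_finiteDimensional (K := M)
    have : IsScalarTower ℚ K M := by infer_instance
    have : FiniteDimensional K M := FiniteDimensional.right ℚ K M
    infer_instance
  let τ : M →ₐ[K] ℂ := IsAlgClosed.lift
  have hτi : Function.Injective τ := (τ : M →+* ℂ).injective
  have hτσ : (τ : M →+* ℂ).comp ψ = σ := RingHom.ext fun c => τ.commutes c
  let c0 : 𝓞 K →+* M := ψ.comp (algebraMap (𝓞 K) K)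
  have hτc0 : (τ : M →+* ℂ).comp c0 = σ.comp (algebraMap (𝓞 K) K) := by
    rw [← hτσ]
    rfl
  let FM : ι → MvPolynomial (Fin n) M := fun l => map c0 (F l)
  have hevM : ∀ (z : Fin n → M) (P : MvPolynomial (Fin n) (𝓞 K)), eval z (map c0 P) = eval₂ c0 z P :=
    fun z P => by rw [eval_map]
  have hevτ : ∀ (z : Fin n → M) (P : MvPolynomial (Fin n) (𝓞 K)),
      τ (eval₂ c0 z P) = eval₂ (σ.comp (algebraMap (𝓞 K) K)) (fun i => τ (z i)) P := by
    intro z P
    have h1 := MvPolynomial.hom_eval₂ P c0 (τ : M →+* ℂ) z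
    rw [hτc0] at h1
    exact h1
  -- the points over `M`
  let X : ℕ → Fin n → M := fun t i => algebraMap L M (x t i)
  have hevL : ∀ t (P : MvPolynomial (Fin n) (𝓞 K)), eval₂ c0 (X t) P =
      algebraMap L M (eval₂ ((algebraMap K L).comp (algebraMap (𝓞 K) K)) (x t) P) := by
    intro t P
    have h1 := MvPolynomial.hom_eval₂ P ((algebraMap K L).comp (algebraMap (𝓞 K) K))
      (algebraMap L M) (x t)
    rw [h1]
    rfl
  have hXF : ∀ t l, eval₂ c0 (X t) (F l) = 0 := fun t l => by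
    rw [hevL, (hx t).1.2 l, map_zero]
  have hXG : ∀ t, ∃ l, eval₂ c0 (X t) (G l) ≠ 0 := by
    intro t
    by_contra hcon
    push Not at hcon
    apply (hx t).2
    refine ⟨(hx t).1.1, fun l => ?_⟩
    have h1 := hcon l
    rw [hevL] at h1
    exact (map_eq_zero_iff _ (algebraMap L M).injective).1 h1
  have hXint : ∀ t i, D.TInt (X t i) := by
    intro t i w hw
    have h1 : X t i ∈ S'.integer M := hSS' _ ((hx t).1.1 i)
    rw [mem_integer_iff] at h1
    refine h1 w fun hwS => ?_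
    obtain ⟨v, hv⟩ := hD w hwS
    exact hw v hv
  -- germs
  obtain ⟨𝒰, h𝒰⟩ : ∃ 𝒰 : Ultrafilter ℕ, 𝒰 = Filter.hyperfilter ℕ := ⟨_, rfl⟩
  let y : Fin n → BA M 𝒰 := fun i => gA 𝒰 fun t => X t i
  have hyP : ∀ P : MvPolynomial (Fin n) M, ∀ᶠ t in (𝒰 : Filter ℕ),
      rep (K := M) (𝒰 := 𝒰) (aeval y P) t = eval (X t) P := fun P => aeval_gA 𝒰 X P
  have hyF : ∀ l, aeval y (FM l) = 0 := by
    intro l
    apply zero_of_rep 𝒰
    filter_upwards [hyP (FM l)] with t ht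
    rw [ht, hevM]
    exact hXF t l
  have hyT : ∀ i, y i ∈ TIR D 𝒰 := by
    intro i
    rw [mem_TIR]
    refine ⟨1, one_ne_zero, ?_⟩
    filter_upwards [rep_gA 𝒰 fun t => X t i] with t ht
    have h1 : ((1 : 𝓞 M) : M) = 1 := rfl
    rw [h1, one_mul]
    show D.TInt (rep (K := M) (𝒰 := 𝒰) (gA 𝒰 fun t => X t i) t)
    rw [ht]
    exact hXint t i
  have haT : ∀ P : MvPolynomial (Fin n) M, aeval y P ∈ TIR D 𝒰 := by
    intro P
    induction P using MvPolynomial.induction_on with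
    | C a =>
      rw [aeval_C]
      exact cg_mem_TIR D 𝒰 a
    | add p q hp hq =>
      rw [map_add]
      exact add_mem hp hq
    | mul_X p i hp =>
      rw [map_mul, aeval_X]
      exact mul_mem hp (hyT i)
  have hyU : ∀ i ∈ U, ∃ u ∈ WA D 𝒰, (u : BA M 𝒰) = y i := by
    intro i hi
    obtain ⟨B, hB⟩ := unit_cert (τ : M →+* ℂ) FM i (by
      intro z hz
      refine hU z (fun l => ?_) i hi
      have h1 := hz l
      simp only [FM] at h1
      rw [eval₂_map, hτc0] at h1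
      exact h1)
    have h1 : aeval y B * y i = 1 := by
      have h2 : aeval y (B * MvPolynomial.X i - 1) = 0 := by
        have h3 : Ideal.span (Set.range FM) ≤ RingHom.ker (aeval y : MvPolynomial (Fin n) M →ₐ[M] BA M 𝒰) := by
          rw [Ideal.span_le]
          rintro _ ⟨l, rfl⟩
          exact hyF l
        exact h3 hB
      rw [map_sub, map_mul, aeval_X, map_one, sub_eq_zero] at h2
      exact h2
    refine ⟨⟨y i, aeval y B, by rw [mul_comm]; exact h1, h1⟩, ?_, rfl⟩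
    rw [mem_WA]
    exact ⟨hyT i, haT B⟩
  have hync : ∃ i, ∀ c : M, y i ≠ algebraMap M (BA M 𝒰) c := by
    by_contra hcon
    push Not at hcon
    choose c hc using hcon
    have h1 : ∀ᶠ t in (𝒰 : Filter ℕ), ∀ i, X t i = c i := by
      refine (Filter.eventually_all).2 fun i => ?_
      have h2 : ∀ᶠ t in (𝒰 : Filter ℕ), rep (K := M) (𝒰 := 𝒰) (algebraMap M (BA M 𝒰) (c i)) t = c i :=
        Pool.Agent.Y742.AR.rep_cg (K := M) (𝒰 := 𝒰) (c i)
      filter_upwards [h2, rep_gA 𝒰 fun t => X t i] with t h3 h4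
      rw [← h4, ← h3, ← hc i]
    have h2 : Set.Infinite {t | ∀ i, X t i = c i} := by
      intro hfin
      exact (Filter.notMem_hyperfilter_of_finite hfin) (h𝒰 ▸ h1)
    obtain ⟨s, hs, t, ht, hst⟩ := h2.nontrivial
    refine hst (hxinj (funext fun i => ?_))
    refine (algebraMap L M).injective ?_
    have h3 : X s i = c i := hs i
    have h4 : X t i = c i := ht i
    exact h3.trans h4.symm
  rcases dat_or2 U FM y hyF (WA D 𝒰) (fun m g hg hne c hc => unitA D 𝒰 m g hg hne c hc)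
    (fun g hg m hm h => tfA D 𝒰 g hg m hm h) hyU hync (thA 𝒰 (τ : M →+* ℂ))
    (thA 𝒰 (τ : M →+* ℂ)).injective with h1 | ⟨⟨d⟩⟩
  · obtain ⟨z, g1, g2, g3⟩ := h1
    have hθ : (thA 𝒰 (τ : M →+* ℂ)).comp (algebraMap M (BA M 𝒰)) =
        (gc 𝒰).comp ((Pi.constRingHom ℕ ℂ).comp (τ : M →+* ℂ)) :=
      RingHom.ext fun c => thA_const 𝒰 (τ : M →+* ℂ) c
    rw [hθ] at g1
    have h4 := gc_second 𝒰 (τ : M →+* ℂ) U FM (fun t i => τ (X t i)) ⟨z, g1, fun i hi => by
      rw [g2 i hi]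
      exact thA_gA 𝒰 (τ : M →+* ℂ) _, fun h5 => g3 (by
      rw [h5]
      funext i
      exact (thA_gA 𝒰 (τ : M →+* ℂ) _).symm)⟩
    obtain ⟨t, z', k1, k2, k3⟩ := h4.exists
    obtain ⟨l, hl⟩ := hXG t
    have hXt : ∀ P : MvPolynomial (Fin n) (𝓞 K), eval₂ (σ.comp (algebraMap (𝓞 K) K))
        (fun i => τ (X t i)) P = τ (eval₂ c0 (X t) P) := fun P => (hevτ _ _).symm
    obtain ⟨v, m1, m2, m3, s, hs, m4⟩ := hcov (fun i => τ (X t i)) z'
      (fun l => by rw [hXt, hXF, map_zero])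
      ⟨l, by rw [hXt]; exact fun h0 => hl ((map_eq_zero_iff (τ : M →+* ℂ) hτi).1 h0)⟩
      (fun l => by
        have h5 := k1 l
        simp only [FM] at h5
        rw [eval₂_map, hτc0] at h5
        exact h5) k2 k3
    have h5 := h v m1 m2 ⟨s, 1, hs, one_ne_zero, by rw [m3]; exact m4⟩ l 1 one_ne_zero
    rw [m3, hXt] at h5
    exact hl ((map_eq_zero_iff (τ : M →+* ℂ) hτi).1 h5)
  · have h2 : ∀ᶠ t in (𝒰 : Filter ℕ), CurveAt (rpA M 𝒰) FM y t := curveA_dat D 𝒰 FM y hyF hyT d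
    have h3 : ∀ᶠ t in (𝒰 : Filter ℕ), ∀ i, rep (K := M) (𝒰 := 𝒰) (y i) t = X t i :=
      (Filter.eventually_all).2 fun i => rep_gA 𝒰 fun t => X t i
    have hne : (𝒰 : Filter ℕ).NeBot := 𝒰.neBot
    have h23 : ∀ᶠ t in (𝒰 : Filter ℕ), CurveAt (rpA M 𝒰) FM y t ∧
        ∀ i, rep (K := M) (𝒰 := 𝒰) (y i) t = X t i := h2.and h3
    obtain ⟨t, ⟨v, g1, g2, g3, j, g4⟩, g5⟩ := (@Filter.Eventually.exists ℕ _ (𝒰 : Filter ℕ) 𝒰.neBot h23)
    have g6 : v 1 = X t := by
      rw [g3]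
      exact funext g5
    obtain ⟨l, hl⟩ := hXG t
    refine not_gm_of_hasLaurent σ F G ⟨M, inferInstance, inferInstance, inferInstance, v, g1, ?_,
      ⟨l, ?_⟩, 1, j, ?_⟩ h
    · intro i s hs
      have h5 := g2 i s hs
      simp only [FM] at h5
      rw [hevM] at h5
      exact h5
    · rw [g6]
      exact hl
    · rw [pow_one]
      exact g4

end Pool.Agent.H21bl
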