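import Mathlib
import Pool.Agent.H21bl.LT.AnE

/-!
Systems which are linear in the coordinates outside `U` are covered by lines.
-/

set_option autoImplicit false

namespace Pool.Agent.H21bl

open MvPolynomial NumberField
open Pool.Agent.N754.LT
open Pool.Agent.H159R3.Exp (Laur)
open scoped NumberField

variable {n : ℕ} {ι : Type}

theorem line_evalC {U : Finset (Fin n)}
    {P : MvPolynomial (Fin n) ℂ} (hP : LinOff U P) (y z : Fin n → ℂ) (hyz : ∀ i ∈ U, z i = y i)
    (c : ℂ) : aeval (fun j => y j + c * (z j - y j)) P = (1 - c) * aeval y P + c * aeval z P := by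
  classical
  have e1 := affine_expand U P hP (fun j => y j + c * (z j - y j))
  have e2 := affine_expand U P hP y
  have e3 := affine_expand U P hP z
  have z1 : z0 U (fun j => y j + c * (z j - y j)) = z0 U y := by
    funext j
    unfold z0
    by_cases hj : j ∈ U
    · rw [if_pos hj, if_pos hj]
      show y j + c * (z j - y j) = y j
      rw [hyz j hj, sub_self, mul_zero, add_zero]
    · rw [if_neg hj, if_neg hj]
  have z2 : z0 U z = z0 U y := by
    funext j
    unfold z0
    by_cases hj : j ∈ U
    · rw [if_pos hj, if_pos hj, hyz j hj]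
    · rw [if_neg hj, if_neg hj]
  rw [e1, e2, e3, z1, z2]
  have h9 : ∑ j ∈ Uᶜ, (y j + c * (z j - y j)) * aeval (z0 U y) (pderiv j P) =
      (1 - c) * ∑ j ∈ Uᶜ, y j * aeval (z0 U y) (pderiv j P) +
        c * ∑ j ∈ Uᶜ, z j * aeval (z0 U y) (pderiv j P) := by
    rw [Finset.mul_sum, Finset.mul_sum, ← Finset.sum_add_distrib]
    refine Finset.sum_congr rfl fun j _ => ?_
    ring
  rw [h9]
  ring

theorem covered_of_lin {K : Type} [Field K] {κ : Type} (σ : K →+* ℂ)
    (F : ι → MvPolynomial (Fin n) (𝓞 K)) (G : κ → MvPolynomial (Fin n) (𝓞 K))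
    (U : Finset (Fin n)) (hlin : ∀ l, LinOff U (F l)) : Covered σ F G U := by
  classical
  set φ : 𝓞 K →+* ℂ := σ.comp (algebraMap (𝓞 K) K) with hφ
  have hlin' : ∀ l, LinOff U (map φ (F l)) := fun l s hs =>
    hlin l s (MvPolynomial.support_map_subset φ (F l) hs)
  have hev : ∀ (z : Fin n → ℂ) (P : MvPolynomial (Fin n) (𝓞 K)), aeval z (map φ P) = eval₂ φ z P :=
    fun z P => by rw [ae_eval, eval_map]
  intro y z hy _ hz hyz hne
  refine ⟨fun s j => y j + (s - 1) * (z j - y j), fun j => ?_, fun l s _ => ?_, ?_, 2,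
    two_ne_zero, ?_⟩
  · have h5 : (fun s : ℂ => y j + (s - 1) * (z j - y j)) =
        fun s => y j + (s + (-1)) * (z j + -y j) := by
      funext s
      rw [sub_eq_add_neg s 1, sub_eq_add_neg (z j) (y j)]
    rw [h5]
    exact (Laur.const _).add ((Laur.id.add (Laur.const _)).mul (Laur.const _))
  · rw [← hev]
    rw [line_evalC (hlin' l) y z hyz, hev, hev, hy, hz, mul_zero, mul_zero, add_zero]
  · funext j
    show y j + (1 - 1) * (z j - y j) = y j
    rw [sub_self, zero_mul, add_zero]
  · intro h
    apply hne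
    funext j
    have h5 : y j + (2 - 1) * (z j - y j) = y j := congrFun h j
    linear_combination h5

end Pool.Agent.H21bl
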